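import Mathlib
import Pool.Agent.HDC.Basic
import Pool.Agent.HDC.Effros
import Pool.Agent.HDC.Hyper
import Pool.Agent.HDC.Dicho

/-!
# HDZ: ample continua

A continuum `K` is ample if every open set containing `K` contains a connected set which contains
`K` and has interior points.
-/

set_option autoImplicit false

open Set Topology Filter Metric Pool.Agent.HDC

namespace Pool.Agent.HDZ

variable {X : Type*} [MetricSpace X]

/-- ample continuum -/
def Amp (K : Set X) : Prop :=
  Ctm K ∧ ∀ U : Set X, IsOpen U → K ⊆ U →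
    ∃ C : Set X, IsPreconnected C ∧ K ⊆ C ∧ C ⊆ U ∧ (interior C).Nonempty

theorem Amp.image {K : Set X} (hK : Amp K) (h : X ≃ₜ X) : Amp (h '' K) := by
  refine ⟨hK.1.image h, fun U hU hKU => ?_⟩
  obtain ⟨C, hC, hKC, hCU, hCi⟩ := hK.2 (h ⁻¹' U) (hU.preimage h.continuous)
    (image_subset_iff.1 hKU)
  refine ⟨h '' C, hC.image h h.continuous.continuousOn, image_mono hKC,
    image_subset_iff.2 hCU, ?_⟩
  rw [← h.image_interior]
  exact hCi.image h

theorem amp_univ [CompactSpace X] [ConnectedSpace X] : Amp (univ : Set X) := by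
  refine ⟨⟨isClosed_univ, isConnected_univ⟩, fun U _ hU => ⟨univ, isPreconnected_univ,
    subset_rfl, hU, ?_⟩⟩
  rw [interior_univ]
  exact univ_nonempty

/-- ample continua are closed under limits -/
theorem Amp.limit [CompactSpace X] (hom : Hom X) {K : ℕ → Set X} {K' : Set X}
    (hK : ∀ n, Amp (K n)) (hK' : Ctm K')
    (hlim : ∀ ε > 0, ∀ᶠ n in atTop, K n ⊆ thickening ε K' ∧ K' ⊆ thickening ε (K n)) :
    Amp K' := by
  refine ⟨hK', fun U hU hKU => ?_⟩
  obtain ⟨ε, hε, hεU⟩ := hK'.1.isCompact.exists_thickening_subset_open hU hKU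
  obtain ⟨δ, hδ, heff⟩ := effros hom (ε := ε / 2) (by linarith)
  obtain ⟨n, hn1, hn2⟩ := (hlim (min δ (ε / 2)) (lt_min hδ (by linarith))).exists
  obtain ⟨x, hx⟩ := hK'.nonempty
  obtain ⟨y, hy, hxy⟩ := mem_thickening_iff.1 (hn2 hx)
  obtain ⟨g, hg, hgx⟩ := heff y x (by
    rw [dist_comm]
    exact hxy.trans_le (min_le_left _ _))
  have hsub : g '' K n ⊆ thickening ε K' := by
    rintro _ ⟨z, hz, rfl⟩
    obtain ⟨w, hw, hzw⟩ := mem_thickening_iff.1 (hn1 hz)
    refine mem_thickening_iff.2 ⟨w, hw, ?_⟩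
    have h1 := hg z
    have h2 : dist z w < ε / 2 := hzw.trans_le (min_le_right _ _)
    calc dist (g z) w ≤ dist (g z) z + dist z w := dist_triangle _ _ _
      _ < ε := by linarith
  obtain ⟨C, hC, hKC, hCU, hCi⟩ := ((hK n).image g).2 _ isOpen_thickening hsub
  have hxC : x ∈ C := hKC ⟨y, hy, hgx⟩
  refine ⟨C ∪ K', hC.union x hxC hx hK'.2.isPreconnected, subset_union_right,
    union_subset (hCU.trans hεU) hKU, hCi.mono (interior_mono subset_union_left)⟩

/-- in a homogeneous compact space which is not locally connected no point is ample -/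
theorem not_amp_singleton [CompactSpace X] [Nonempty X] (hom : Hom X)
    (hlc : ¬ LocallyConnectedSpace X) (x : X) : ¬ Amp ({x} : Set X) := by
  rcases dichotomy hom with h | ⟨r, hr, hC⟩
  · exact absurd h hlc
  intro hx
  obtain ⟨C, hCp, hxC, hCU, hCi⟩ := hx.2 (ball x (r / 4)) isOpen_ball
    (singleton_subset_iff.2 (mem_ball_self (by linarith)))
  have hd : diam C < r := by
    have h1 : diam C ≤ diam (ball x (r / 4)) := diam_mono hCU isBounded_ball
    have h2 : diam (ball x (r / 4)) ≤ 2 * (r / 4) := diam_ball (by linarith)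
    linarith
  have h3 := hC C ⟨⟨x, hxC rfl⟩, hCp⟩ hd
  rw [h3] at hCi
  exact not_nonempty_empty hCi

end Pool.Agent.HDZ
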