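import Mathlib
import Pool.Agent.HDC.Basic
import Pool.Agent.HDC.Hyper
import Pool.Agent.HDA.Defs
import Pool.Agent.HDA.Whit
import Pool.Agent.HDZ.Amp

/-!
# HDZ: minimal ample pairs

Among the pairs of intersecting continua `A`, `B` with `A ∪ B` ample there is one for which
`max (wm A) (wm B)` is minimal.
-/

set_option autoImplicit false

open Set Topology Filter Metric Pool.Agent.HDC Pool.Agent.HDA

namespace Pool.Agent.HDZ

variable {X : Type*} [MetricSpace X] [CompactSpace X] [Nonempty X]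
  [TopologicalSpace.SeparableSpace X]

/-- the size function is lower semicontinuous -/
theorem wm_le_of_thickening {A B : Set X} {δ : ℝ} (hδ : 0 ≤ δ) (h : A ⊆ thickening δ B) :
    wm A ≤ wm B + 4 * δ := by
  classical
  have h1 : ∀ a : X, ∃ b : X, a ∈ A → b ∈ B ∧ dist a b ≤ δ := by
    intro a
    by_cases ha : a ∈ A
    · obtain ⟨b, hb, hab⟩ := mem_thickening_iff.1 (h ha)
      exact ⟨b, fun _ => ⟨hb, hab.le⟩⟩
    · exact ⟨a, fun h => absurd h ha⟩
  choose g hg using h1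
  have h2 := wm_close (g₁ := (id : X → X)) (g₂ := g) hδ (Z := A) fun z hz => (hg z hz).2
  have h3 : wm (g '' A) ≤ wm B := by
    refine wm_mono ?_
    rintro _ ⟨z, hz, rfl⟩
    exact (hg z hz).1
  rw [image_id] at h2
  have := (abs_le.1 h2).2
  linarith

/-- admissible pairs -/
def Pr (A B : Set X) : Prop := Ctm A ∧ Ctm B ∧ (A ∩ B).Nonempty ∧ Amp (A ∪ B)

theorem exists_min_pair [ConnectedSpace X] (hom : Hom X) :
    ∃ A B : Set X, Pr A B ∧ ∀ A' B' : Set X, Pr A' B' →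
      max (wm A) (wm B) ≤ max (wm A') (wm B') := by
  have hXc : Ctm (univ : Set X) := ⟨isClosed_univ, isConnected_univ⟩
  set V : Set ℝ := {t | ∃ A B : Set X, Pr A B ∧ t = max (wm A) (wm B)} with hV
  have hVne : V.Nonempty := ⟨_, univ, univ, ⟨hXc, hXc, by simp, by
    rw [union_self]; exact amp_univ⟩, rfl⟩
  have hVb : BddBelow V := ⟨0, by
    rintro _ ⟨A, B, -, rfl⟩
    exact (wm_nonneg A).trans (le_max_left _ _)⟩
  set R := sInf V with hR
  have hseq : ∀ n : ℕ, ∃ p : Set X × Set X, Pr p.1 p.2 ∧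
      max (wm p.1) (wm p.2) < R + 1 / ((n : ℝ) + 1) := by
    intro n
    have h1 : sInf V < R + 1 / ((n : ℝ) + 1) := by
      have : (0 : ℝ) < 1 / ((n : ℝ) + 1) := Nat.one_div_pos_of_nat
      linarith
    obtain ⟨t, ⟨A, B, hAB, rfl⟩, ht⟩ := exists_lt_of_csInf_lt hVne h1
    exact ⟨(A, B), hAB, ht⟩
  choose p hp hpR using hseq
  obtain ⟨A, φ, hA, hφ, hlimA⟩ := exists_limit (fun n => (p n).1) fun n => (hp n).1
  obtain ⟨B, ψ, hB, hψ, hlimB⟩ := exists_limit (fun n => (p (φ n)).2) fun n => (hp (φ n)).2.1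
  have hlimA' : ∀ ε > 0, ∀ᶠ n in atTop, (p (φ (ψ n))).1 ⊆ thickening ε A ∧
      A ⊆ thickening ε (p (φ (ψ n))).1 := fun ε hε => hψ.tendsto_atTop.eventually (hlimA ε hε)
  have hmeet : (A ∩ B).Nonempty := by
    by_contra hne
    have hd : Disjoint A B := disjoint_iff_inter_eq_empty.2 (not_nonempty_iff_eq_empty.1 hne)
    obtain ⟨τ, hτ, hdt⟩ := hd.exists_thickenings hA.1.isCompact hB.1
    obtain ⟨n, hn1, hn2⟩ := ((hlimA' τ hτ).and (hlimB τ hτ)).exists
    obtain ⟨z, hz1, hz2⟩ := (hp (φ (ψ n))).2.2.1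
    exact Set.disjoint_left.1 hdt (hn1.1 hz1) (hn2.1 hz2)
  have hamp : Amp (A ∪ B) := by
    refine Amp.limit hom (K := fun n => (p (φ (ψ n))).1 ∪ (p (φ (ψ n))).2)
      (fun n => (hp _).2.2.2) (hA.union hB hmeet) fun ε hε => ?_
    filter_upwards [hlimA' ε hε, hlimB ε hε] with n h1 h2
    refine ⟨union_subset ?_ ?_, union_subset ?_ ?_⟩
    · exact h1.1.trans (thickening_subset_of_subset ε subset_union_left)
    · exact h2.1.trans (thickening_subset_of_subset ε subset_union_right)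
    · exact h1.2.trans (thickening_subset_of_subset ε subset_union_left)
    · exact h2.2.trans (thickening_subset_of_subset ε subset_union_right)
  refine ⟨A, B, ⟨hA, hB, hmeet, hamp⟩, fun A' B' h' => ?_⟩
  have hRle : R ≤ max (wm A') (wm B') := csInf_le hVb ⟨A', B', h', rfl⟩
  refine le_trans ?_ hRle
  refine le_of_forall_pos_le_add fun ε hε => ?_
  have hto : Tendsto (fun n : ℕ => 1 / ((φ (ψ n) : ℝ) + 1)) atTop (𝓝 0) :=
    tendsto_one_div_add_atTop_nhds_zero_nat.comp (hφ.tendsto_atTop.comp hψ.tendsto_atTop)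
  have h3 : ∀ᶠ n : ℕ in atTop, 1 / ((φ (ψ n) : ℝ) + 1) < ε / 2 :=
    hto.eventually (gt_mem_nhds (by linarith))
  obtain ⟨n, hn1, hn2, hn3⟩ := ((hlimA' (ε / 8) (by linarith)).and
    ((hlimB (ε / 8) (by linarith)).and h3)).exists
  have h4 := wm_le_of_thickening (by linarith) hn1.2
  have h5 := wm_le_of_thickening (by linarith) hn2.2
  have h6 := hpR (φ (ψ n))
  have h7 := (le_max_left (wm (p (φ (ψ n))).1) (wm (p (φ (ψ n))).2))
  have h8 := (le_max_right (wm (p (φ (ψ n))).1) (wm (p (φ (ψ n))).2))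
  refine max_le ?_ ?_ <;> linarith

end Pool.Agent.HDZ
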