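import Mathlib
import Pool.Agent.HDC.Basic
import Pool.Agent.HDC.Effros
import Pool.Agent.HDZ.Amp

/-!
# HDZ: Lemma Z

If `M` is ample and the continuum `F` is not ample, then there are arbitrarily small homeomorphisms
`k` such that `k '' M` meets `M` and `k '' F` is disjoint from `F`.
-/

set_option autoImplicit false

open Set Topology Filter Metric Pool.Agent.HDC

namespace Pool.Agent.HDZ

variable {X : Type*} [MetricSpace X]

/-- in a compact space a point outside the component of `x` can be separated from `x` -/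
theorem sep_comp [CompactSpace X] {Y : Set X} (hY : IsClosed Y) {x y : X} (hx : x ∈ Y)
    (hy : y ∈ Y) (h : y ∉ connectedComponentIn Y x) :
    ∃ Y₁ Y₂ : Set X, IsClosed Y₁ ∧ IsClosed Y₂ ∧ Disjoint Y₁ Y₂ ∧ Y₁ ∪ Y₂ = Y ∧
      x ∈ Y₁ ∧ y ∈ Y₂ := by
  have : CompactSpace Y := isCompact_iff_compactSpace.mp hY.isCompact
  have h1 : (⟨y, hy⟩ : Y) ∉ connectedComponent (⟨x, hx⟩ : Y) := by
    intro hc
    apply h
    rw [connectedComponentIn_eq_image hx]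
    exact ⟨_, hc, rfl⟩
  rw [connectedComponent_eq_iInter_isClopen, mem_iInter] at h1
  push Not at h1
  obtain ⟨⟨s, hs, hxs⟩, hys⟩ := h1
  refine ⟨(↑) '' s, (↑) '' sᶜ, (hs.1.isCompact.image continuous_subtype_val).isClosed,
    (hs.compl.1.isCompact.image continuous_subtype_val).isClosed, ?_, ?_, ⟨_, hxs, rfl⟩,
    ⟨_, hys, rfl⟩⟩
  · rw [disjoint_image_iff Subtype.val_injective]
    exact disjoint_compl_right
  · rw [← image_union, union_compl_self, image_univ, Subtype.range_coe]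

/-- there is room left in a strict inequality on a compact space -/
theorem sm_slack [CompactSpace X] {g : X ≃ₜ X} {η : ℝ} (hg : Sm g η) :
    ∃ τ > 0, ∀ f : X ≃ₜ X, Sm f τ → Sm (g.trans f) η := by
  rcases isEmpty_or_nonempty X with hX | hX
  · exact ⟨1, one_pos, fun f _ x => (hX.false x).elim⟩
  · obtain ⟨a, -, ha⟩ := isCompact_univ.exists_isMaxOn (univ_nonempty (α := X))
      (f := fun x => dist (g x) x) (g.continuous.dist continuous_id).continuousOn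
    refine ⟨η - dist (g a) a, sub_pos.2 (hg a), fun f hf x => ?_⟩
    have h1 : dist (g x) x ≤ dist (g a) a := ha (mem_univ x)
    have h2 := hf (g x)
    calc dist ((g.trans f) x) x ≤ dist (f (g x)) (g x) + dist (g x) x := dist_triangle _ _ _
      _ < η := by linarith

theorem lemmaZ [CompactSpace X] (hom : Hom X) {M F : Set X} (hM : Amp M) (hF : Ctm F)
    (hFn : ¬ Amp F) {η : ℝ} (hη : 0 < η) :
    ∃ k : X ≃ₜ X, Sm k η ∧ (k '' M ∩ M).Nonempty ∧ Disjoint (k '' F) F := by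
  by_contra hcon
  have hcon' : ∀ k : X ≃ₜ X, Sm k η → (k '' M ∩ M).Nonempty → (k '' F ∩ F).Nonempty := by
    intro k hk hkM
    by_contra hkF
    exact hcon ⟨k, hk, hkM, disjoint_iff_inter_eq_empty.2 (not_nonempty_iff_eq_empty.1 hkF)⟩
  apply hFn
  refine ⟨hF, fun U hU hFU => ?_⟩
  obtain ⟨ε, hε, hεU⟩ := hF.1.isCompact.exists_cthickening_subset_open hU hFU
  set Y := cthickening ε F with hY
  have hYc : IsClosed Y := isClosed_cthickening
  set η₁ := min (η / 2) ε with hη₁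
  have hη₁0 : 0 < η₁ := lt_min (by linarith) hε
  have hgY : ∀ g : X ≃ₜ X, Sm g η₁ → g '' F ⊆ Y := fun g hg =>
    ((hg.mono (min_le_right _ _)).image_subset F).trans (thickening_subset_cthickening _ _)
  have hmeet : ∀ g g' : X ≃ₜ X, Sm g η₁ → Sm g' η₁ → (g '' M ∩ g' '' M).Nonempty →
      (g '' F ∩ g' '' F).Nonempty := by
    rintro g g' hg hg' ⟨_, ⟨m, hm, rfl⟩, ⟨m', hm', hmm⟩⟩
    have hk : Sm (g.trans g'.symm) η := by
      refine (hg.trans hg'.symm).mono ?_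
      have : η₁ ≤ η / 2 := min_le_left _ _
      linarith
    have h1 : (g.trans g'.symm) m = m' := by
      change g'.symm (g m) = m'
      rw [← hmm, g'.symm_apply_apply]
    obtain ⟨_, ⟨z, hz, rfl⟩, hz'⟩ := hcon' _ hk ⟨m', ⟨m, hm, h1⟩, hm'⟩
    exact ⟨g z, ⟨z, hz, rfl⟩, ⟨_, hz', g'.apply_symm_apply (g z)⟩⟩
  obtain ⟨δ, hδ, heff⟩ := effros hom hη₁0
  have hcovM : ∀ x ∈ thickening δ M, ∃ g : X ≃ₜ X, Sm g η₁ ∧ x ∈ g '' M := by
    intro x hx
    obtain ⟨m, hm, hxm⟩ := mem_thickening_iff.1 hx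
    obtain ⟨g, hg, hgm⟩ := heff m x (by rwa [dist_comm])
    exact ⟨g, hg, m, hm, hgm⟩
  obtain ⟨C', hC', hMC', hC'δ, hC'i⟩ := hM.2 _ isOpen_thickening (self_subset_thickening hδ M)
  obtain ⟨x₀, hx₀⟩ := hF.nonempty
  have hFY : F ⊆ Y := self_subset_cthickening F
  set YF := connectedComponentIn Y x₀ with hYF
  have hFYF : F ⊆ YF := hF.2.isPreconnected.subset_connectedComponentIn hx₀ hFY
  -- the sets `W` are open
  have hWo : ∀ Y₁ Y₂ : Set X, IsClosed Y₁ → IsClosed Y₂ → Disjoint Y₁ Y₂ → Y ⊆ Y₁ ∪ Y₂ →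
      IsOpen {x : X | ∃ g : X ≃ₜ X, Sm g η₁ ∧ x ∈ g '' M ∧ g '' F ⊆ Y₁} := by
    intro Y₁ Y₂ h1 h2 hd hcov
    rw [Metric.isOpen_iff]
    rintro x ⟨g, hg, hxg, hgF⟩
    obtain ⟨τ₁, hτ₁, hs⟩ := sm_slack hg
    obtain ⟨τ₂, hτ₂, hdt⟩ := hd.exists_thickenings h1.isCompact h2
    obtain ⟨δ', hδ', heff'⟩ := effros hom (lt_min hτ₁ hτ₂)
    refine ⟨δ', hδ', fun x' hx' => ?_⟩
    obtain ⟨f, hf, hfx⟩ := heff' x x' (by rw [dist_comm]; exact hx')
    have hgf := hs f (hf.mono (min_le_left _ _))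
    refine ⟨g.trans f, hgf, ?_, ?_⟩
    · obtain ⟨m, hm, rfl⟩ := hxg
      exact ⟨m, hm, hfx⟩
    · rintro _ ⟨z, hz, rfl⟩
      rcases hcov (hgY _ hgf ⟨z, hz, rfl⟩) with h | h
      · exact h
      · exfalso
        refine Set.disjoint_left.1 hdt ?_ (self_subset_thickening hτ₂ Y₂ h)
        refine mem_thickening_iff.2 ⟨g z, hgF ⟨z, hz, rfl⟩, ?_⟩
        exact (hf.mono (min_le_right _ _)) (g z)
  -- the claim
  have hclaim : ∀ x ∈ C', ∀ g : X ≃ₜ X, Sm g η₁ → x ∈ g '' M → g '' F ⊆ YF := by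
    intro x hx g hg hxg
    by_contra hno
    obtain ⟨y, hyF, hyY⟩ := not_subset.1 hno
    obtain ⟨Y₁, Y₂, hY₁, hY₂, hd, hu, hxY, hyY₂⟩ := sep_comp hYc (hFY hx₀) (hgY g hg hyF) hyY
    have hside : ∀ S : Set X, IsPreconnected S → S ⊆ Y → S ⊆ Y₁ ∨ S ⊆ Y₂ := by
      intro S hS hSY
      refine (isPreconnected_iff_subset_of_disjoint_closed.1 hS) Y₁ Y₂ hY₁ hY₂
        (by rw [hu]; exact hSY) ?_
      rw [disjoint_iff_inter_eq_empty.1 hd, inter_empty]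
    have hF1 : F ⊆ Y₁ := by
      rcases hside F hF.2.isPreconnected hFY with h | h
      · exact h
      · exact absurd (h hx₀) (Set.disjoint_left.1 hd hxY)
    have hgF2 : g '' F ⊆ Y₂ := by
      rcases hside (g '' F) (hF.image g).2.isPreconnected (hgY g hg) with h | h
      · exact absurd hyY₂ (Set.disjoint_left.1 hd (h hyF))
      · exact h
    have hcov : C' ⊆ {x : X | ∃ g : X ≃ₜ X, Sm g η₁ ∧ x ∈ g '' M ∧ g '' F ⊆ Y₁} ∪
        {x : X | ∃ g : X ≃ₜ X, Sm g η₁ ∧ x ∈ g '' M ∧ g '' F ⊆ Y₂} := by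
      intro w hw
      obtain ⟨g', hg', hwg'⟩ := hcovM w (hC'δ hw)
      rcases hside (g' '' F) (hF.image g').2.isPreconnected (hgY g' hg') with h | h
      · exact Or.inl ⟨g', hg', hwg', h⟩
      · exact Or.inr ⟨g', hg', hwg', h⟩
    obtain ⟨m, hm⟩ := hM.1.nonempty
    obtain ⟨w, -, ⟨g₁, hg₁, hwg₁, hg₁F⟩, ⟨g₂, hg₂, hwg₂, hg₂F⟩⟩ := hC' _ _
      (hWo Y₁ Y₂ hY₁ hY₂ hd hu.symm.subset)
      (hWo Y₂ Y₁ hY₂ hY₁ hd.symm (by rw [union_comm, hu])) hcov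
      ⟨m, hMC' hm, Homeomorph.refl X, Sm.refl hη₁0, by simpa using hm, by simpa using hF1⟩
      ⟨x, hx, g, hg, hxg, hgF2⟩
    obtain ⟨v, hv₁, hv₂⟩ := hmeet g₁ g₂ hg₁ hg₂ ⟨w, hwg₁, hwg₂⟩
    exact Set.disjoint_left.1 hd (hg₁F hv₁) (hg₂F hv₂)
  -- interior points
  obtain ⟨p, hp⟩ := hC'i
  obtain ⟨r, hr, hrC⟩ := Metric.isOpen_iff.1 isOpen_interior p hp
  obtain ⟨g₀, hg₀, hpg₀⟩ := hcovM p (hC'δ (interior_subset hp))
  obtain ⟨τ₁, hτ₁, hs⟩ := sm_slack hg₀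
  obtain ⟨δ', hδ', heff'⟩ := effros hom (lt_min hτ₁ hr)
  refine ⟨YF, isPreconnected_connectedComponentIn, hFYF,
    (connectedComponentIn_subset _ _).trans hεU, g₀ x₀, ?_⟩
  rw [mem_interior]
  refine ⟨ball (g₀ x₀) δ', ?_, isOpen_ball, mem_ball_self hδ'⟩
  intro y hy
  obtain ⟨f, hf, hfy⟩ := heff' (g₀ x₀) y (by rw [dist_comm]; exact hy)
  have hfp : f p ∈ C' := by
    refine interior_subset (hrC ?_)
    exact (hf.mono (min_le_right _ _)) p
  obtain ⟨m, hm, rfl⟩ := hpg₀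
  have h1 := hclaim _ hfp (g₀.trans f) (hs f (hf.mono (min_le_left _ _))) ⟨m, hm, rfl⟩
  exact h1 ⟨x₀, hx₀, hfy⟩

end Pool.Agent.HDZ
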