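import Mathlib
import Pool.Agent.HDC.Basic
import Pool.Agent.HDA.Defs
import Pool.Agent.HDA.Whit
import Pool.Agent.HDZ.Amp
import Pool.Agent.HDZ.Zig

/-!
# HDZ: movability with a hub

Let `B` be a finite union of continua of size `< r`, where any two intersecting continua of size
`< r` have a union which is not ample, and let `H` be an ample continuum. Then there are arbitrarily
small homeomorphisms `h` such that `h '' B` is disjoint from `B`, and `H` and `h '' H` are joined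
by a finite chain of translates of `H` by small homeomorphisms.
-/

set_option autoImplicit false

open Set Topology Filter Metric Pool.Agent.HDC Pool.Agent.HDA

namespace Pool.Agent.HDZ

section

variable {X : Type*} [MetricSpace X]

/-- disjointness of the image is stable -/
theorem robust [CompactSpace X] {K L : Set X} (hK : IsClosed K) (hL : IsClosed L) {k : X ≃ₜ X}
    (h : Disjoint (k '' K) L) :
    ∃ τ > 0, ∀ k' : X ≃ₜ X, Sm k' τ → Disjoint ((k'.trans k) '' K) L := by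
  have h1 : Disjoint K (k ⁻¹' L) := by
    rw [Set.disjoint_left]
    intro x hx hx'
    exact Set.disjoint_left.1 h ⟨x, hx, rfl⟩ hx'
  obtain ⟨τ, hτ, hd⟩ := h1.exists_thickenings hK.isCompact (hL.preimage k.continuous)
  refine ⟨τ, hτ, fun k' hk' => ?_⟩
  rw [Set.disjoint_left]
  rintro _ ⟨x, hx, rfl⟩ hx'
  exact Set.disjoint_left.1 hd (hk'.image_subset K ⟨x, hx, rfl⟩)
    (self_subset_thickening hτ _ hx')

/-- `H` and `k '' H` are linked by translates of `H` by homeomorphisms moving points by `< η` -/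
def Lk (H : Set X) (η : ℝ) (k : X ≃ₜ X) : Prop :=
  ∃ t : Set (X ≃ₜ X), t.Finite ∧ (∀ f ∈ t, Sm f η) ∧ IsConnected (⋃ f ∈ t, f '' H) ∧
    Homeomorph.refl X ∈ t ∧ k ∈ t

theorem Lk.base {H : Set X} (hH : IsConnected H) {η : ℝ} (hη : 0 < η) :
    Lk H η (Homeomorph.refl X) := by
  refine ⟨{Homeomorph.refl X}, finite_singleton _, ?_, ?_, rfl, rfl⟩
  · rintro f rfl
    exact Sm.refl hη
  · simpa using hH

theorem Lk.step {H : Set X} (hH : IsConnected H) {η : ℝ} {k k₁ : X ≃ₜ X} (hk : Lk H η k)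
    (h1 : (k₁ '' H ∩ H).Nonempty) (h2 : Sm (k₁.trans k) η) : Lk H η (k₁.trans k) := by
  obtain ⟨t, ht, hts, htc, hr, hkt⟩ := hk
  refine ⟨insert (k₁.trans k) t, ht.insert _, ?_, ?_, Or.inr hr, Or.inl rfl⟩
  · rintro f (rfl | hf)
    · exact h2
    · exact hts f hf
  · rw [biUnion_insert]
    refine (hH.image _ (k₁.trans k).continuous.continuousOn).union ?_ htc
    obtain ⟨_, ⟨x, hx, rfl⟩, hx'⟩ := h1
    exact ⟨k (k₁ x), ⟨x, hx, rfl⟩, mem_biUnion hkt ⟨k₁ x, hx', rfl⟩⟩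

theorem mov_core [CompactSpace X] (hom : Hom X) {s : Set (Set X)} (hsf : s.Finite)
    (hs : ∀ K ∈ s, Ctm K) {H : Set X} (hH : Amp H) {η : ℝ} (hη : 0 < η)
    (hna : ∀ K ∈ s, ∀ L ∈ s, ∀ k : X ≃ₜ X, Sm k η → (K ∩ k.symm '' L).Nonempty →
      ¬ Amp (K ∪ k.symm '' L)) :
    ∃ k : X ≃ₜ X, Sm k η ∧ (∀ K ∈ s, ∀ L ∈ s, Disjoint (k '' K) L) ∧ Lk H η k := by
  classical
  have key : ∀ P : Finset (Set X × Set X), (∀ p ∈ P, p.1 ∈ s ∧ p.2 ∈ s) →
      ∃ k : X ≃ₜ X, (∃ τ > 0, ∀ k' : X ≃ₜ X, Sm k' τ → Sm (k'.trans k) η ∧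
        ∀ p ∈ P, Disjoint ((k'.trans k) '' p.1) p.2) ∧ Lk H η k := by
    intro P
    induction P using Finset.induction_on with
    | empty =>
      intro _
      refine ⟨Homeomorph.refl X, ⟨η, hη, fun k' hk' => ⟨fun x => hk' x, fun p hp => ?_⟩⟩,
        Lk.base hH.1.2 hη⟩
      simp at hp
    | insert q P hq ih =>
      intro hP
      obtain ⟨k, ⟨τ, hτ, hk⟩, hL⟩ := ih fun p hp => hP p (Finset.mem_insert_of_mem hp)
      obtain ⟨hq1, hq2⟩ := hP q (Finset.mem_insert_self q P)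
      have hkη : Sm k η := fun x => (hk (Homeomorph.refl X) (Sm.refl hτ)).1 x
      by_cases hd : Disjoint (k '' q.1) q.2
      · obtain ⟨τ', hτ', hr⟩ := robust (hs _ hq1).1 (hs _ hq2).1 hd
        refine ⟨k, ⟨min τ τ', lt_min hτ hτ', fun k' hk' => ?_⟩, hL⟩
        obtain ⟨h1, h2⟩ := hk k' (hk'.mono (min_le_left _ _))
        refine ⟨h1, fun p hp => ?_⟩
        rcases Finset.mem_insert.1 hp with rfl | hp
        · exact hr k' (hk'.mono (min_le_right _ _))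
        · exact h2 p hp
      · have hne : (q.1 ∩ k.symm '' q.2).Nonempty := by
          rw [Set.not_disjoint_iff] at hd
          obtain ⟨_, ⟨x, hx, rfl⟩, hx'⟩ := hd
          exact ⟨x, hx, k x, hx', k.symm_apply_apply x⟩
        have hF : Ctm (q.1 ∪ k.symm '' q.2) := (hs _ hq1).union ((hs _ hq2).image k.symm) hne
        obtain ⟨k₁, hk₁, hk₁H, hk₁F⟩ := lemmaZ hom hH hF (hna _ hq1 _ hq2 k hkη hne)
          (half_pos hτ)
        have hd' : Disjoint ((k₁.trans k) '' q.1) q.2 := by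
          rw [Set.disjoint_left]
          rintro _ ⟨x, hx, rfl⟩ hx'
          refine Set.disjoint_left.1 hk₁F ⟨x, Or.inl hx, rfl⟩ (Or.inr ⟨_, hx', ?_⟩)
          exact k.symm_apply_apply (k₁ x)
        obtain ⟨τ', hτ', hr⟩ := robust (hs _ hq1).1 (hs _ hq2).1 hd'
        have hadd : ∀ k' : X ≃ₜ X, Sm k' (min (τ / 2) τ') → Sm (k'.trans k₁) τ := by
          intro k' hk'
          refine ((hk'.mono (min_le_left _ _)).trans hk₁).mono ?_
          linarith
        refine ⟨k₁.trans k, ⟨min (τ / 2) τ', lt_min (half_pos hτ) hτ', fun k' hk' => ?_⟩,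
          hL.step hH.1.2 hk₁H ?_⟩
        · obtain ⟨h1, h2⟩ := hk (k'.trans k₁) (hadd k' hk')
          refine ⟨h1, fun p hp => ?_⟩
          rcases Finset.mem_insert.1 hp with rfl | hp
          · exact hr k' (hk'.mono (min_le_right _ _))
          · exact h2 p hp
        · exact (hk k₁ (hk₁.mono (by linarith))).1
  obtain ⟨k, ⟨τ, hτ, hk⟩, hL⟩ := key (hsf.prod hsf).toFinset (by
    intro p hp
    rw [Finite.mem_toFinset] at hp
    exact ⟨hp.1, hp.2⟩)
  obtain ⟨h1, h2⟩ := hk (Homeomorph.refl X) (Sm.refl hτ)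
  refine ⟨k, fun x => h1 x, fun K hK L hL' => ?_, hL⟩
  have h3 := h2 (K, L) (by
    rw [Finite.mem_toFinset]
    exact ⟨hK, hL'⟩)
  exact h3

end

section

variable {X : Type*} [MetricSpace X] [CompactSpace X] [Nonempty X]
  [TopologicalSpace.SeparableSpace X]

/-- finite unions of continua of size `< r` -/
def FQ (r : ℝ) (B : Set X) : Prop :=
  ∃ s : Set (Set X), s.Finite ∧ (∀ K ∈ s, Ctm K ∧ wm K < r) ∧ B = ⋃₀ s

omit [CompactSpace X] in
theorem FQ.isClosed {r : ℝ} {B : Set X} (hB : FQ r B) : IsClosed B := by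
  obtain ⟨s, hs, hK, rfl⟩ := hB
  rw [sUnion_eq_biUnion]
  exact hs.isClosed_biUnion fun K h => (hK K h).1.1

omit [CompactSpace X] in
theorem FQ.union {r : ℝ} {B B' : Set X} (hB : FQ r B) (hB' : FQ r B') : FQ r (B ∪ B') := by
  obtain ⟨s, hs, hK, rfl⟩ := hB
  obtain ⟨s', hs', hK', rfl⟩ := hB'
  refine ⟨s ∪ s', hs.union hs', ?_, (sUnion_union s s').symm⟩
  rintro K (h | h)
  · exact hK K h
  · exact hK' K h

omit [CompactSpace X] in
theorem FQ.single {r : ℝ} {K : Set X} (hK : Ctm K) (h : wm K < r) : FQ r K := by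
  refine ⟨{K}, finite_singleton K, ?_, (sUnion_singleton K).symm⟩
  rintro _ rfl
  exact ⟨hK, h⟩

theorem exists_small_set {r : ℝ} {s : Set (Set X)} (hs : s.Finite) (hK : ∀ K ∈ s, wm K < r) :
    ∃ δ > 0, ∀ K ∈ s, ∀ h : X ≃ₜ X, Sm h δ → wm (h '' K) < r := by
  have h1 : ∀ᶠ δ : ℝ in 𝓝[>] 0, ∀ K ∈ s, wm K + 4 * δ < r := by
    rw [eventually_all_finite hs]
    intro K hKs
    have h2 : Tendsto (fun δ : ℝ => wm K + 4 * δ) (𝓝[>] 0) (𝓝 (wm K + 4 * 0)) :=
      ((continuous_const.add (continuous_const.mul continuous_id)).tendsto 0).mono_left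
        nhdsWithin_le_nhds
    refine h2.eventually (gt_mem_nhds ?_)
    have := hK K hKs
    linarith
  obtain ⟨δ, h2, hδ⟩ := (h1.and self_mem_nhdsWithin).exists
  refine ⟨δ, hδ, fun K hKs h hh => ?_⟩
  have h3 := (abs_le.1 (wm_image_close hh K)).2
  have h4 := h2 K hKs
  linarith

theorem FQ.exists_small {r : ℝ} {B : Set X} (hB : FQ r B) :
    ∃ δ > 0, ∀ h : X ≃ₜ X, Sm h δ → FQ r (h '' B) := by
  obtain ⟨s, hs, hK, rfl⟩ := hB
  obtain ⟨δ, hδ, hδs⟩ := exists_small_set hs fun K h => (hK K h).2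
  refine ⟨δ, hδ, fun h hh => ⟨(fun K => h '' K) '' s, hs.image _, ?_, ?_⟩⟩
  · rintro _ ⟨K, hKs, rfl⟩
    exact ⟨(hK K hKs).1.image h, hδs K hKs h hh⟩
  · rw [sUnion_image, sUnion_eq_biUnion, image_iUnion₂]

omit [CompactSpace X] in
theorem FQ.biUnion {r : ℝ} {ι : Type*} {t : Set ι} (ht : t.Finite) {B : ι → Set X}
    (hB : ∀ i ∈ t, FQ r (B i)) : FQ r (⋃ i ∈ t, B i) := by
  induction t, ht using Set.Finite.induction_on with
  | empty =>
    refine ⟨∅, finite_empty, ?_, by simp⟩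
    simp
  | insert ha _ ih =>
    rw [biUnion_insert]
    exact (hB _ (mem_insert _ _)).union (ih fun i hi => hB i (mem_insert_of_mem _ hi))

theorem mov_hub (hom : Hom X) {r : ℝ}
    (hmin : ∀ K L : Set X, Ctm K → Ctm L → wm K < r → wm L < r → (K ∩ L).Nonempty →
      ¬ Amp (K ∪ L))
    {B H : Set X} (hB : FQ r B) (hH : Amp H) (hQH : FQ r H) {ε δ : ℝ} (hε : 0 < ε)
    (hδ : 0 < δ) :
    ∃ h : X ≃ₜ X, Sm h δ ∧ Disjoint (h '' B) B ∧
      ∃ T : Set X, FQ r T ∧ Ctm T ∧ T ⊆ thickening ε H ∧ (T ∩ H).Nonempty ∧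
        (T ∩ h '' H).Nonempty := by
  obtain ⟨s, hs, hK, rfl⟩ := hB
  obtain ⟨η₁, hη₁, h1⟩ := exists_small_set hs fun K h => (hK K h).2
  obtain ⟨η₂, hη₂, h2⟩ := hQH.exists_small
  set η := min (min η₁ η₂) (min ε δ) with hη
  have hη0 : 0 < η := lt_min (lt_min hη₁ hη₂) (lt_min hε hδ)
  have hη1 : η ≤ η₁ := (min_le_left _ _).trans (min_le_left _ _)
  have hη2 : η ≤ η₂ := (min_le_left _ _).trans (min_le_right _ _)
  have hη3 : η ≤ ε := (min_le_right _ _).trans (min_le_left _ _)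
  have hη4 : η ≤ δ := (min_le_right _ _).trans (min_le_right _ _)
  obtain ⟨k, hk, hd, t, ht, hts, htc, hr, hkt⟩ := mov_core hom hs (fun K h => (hK K h).1) hH hη0
    (fun K hKs L hLs k hk hne => hmin _ _ (hK K hKs).1 ((hK L hLs).1.image k.symm)
      (hK K hKs).2 (h1 L hLs k.symm (hk.symm.mono hη1)) hne)
  obtain ⟨x, hx⟩ := hH.1.nonempty
  have hQT : FQ r (⋃ f ∈ t, f '' H) := FQ.biUnion ht fun f hf => h2 f ((hts f hf).mono hη2)
  refine ⟨k, hk.mono hη4, ?_, ⋃ f ∈ t, f '' H, hQT, ⟨hQT.isClosed, htc⟩, ?_, ?_, ?_⟩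
  · rw [Set.disjoint_left]
    rintro _ ⟨y, ⟨K, hKs, hy⟩, rfl⟩ ⟨L, hLs, hy'⟩
    exact Set.disjoint_left.1 (hd K hKs L hLs) ⟨y, hy, rfl⟩ hy'
  · refine iUnion₂_subset fun f hf => ?_
    exact ((hts f hf).mono hη3).image_subset H
  · exact ⟨x, mem_biUnion hr ⟨x, hx, rfl⟩, hx⟩
  · exact ⟨k x, mem_biUnion hkt ⟨x, hx, rfl⟩, ⟨x, hx, rfl⟩⟩

end

end Pool.Agent.HDZ
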