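import Mathlib
import Pool.Agent.HDC.Iter
import Pool.Agent.HDC.MainL
import Pool.Agent.HDA.Defs
import Pool.Agent.HDA.Whit
import Pool.Agent.HDZ.Amp
import Pool.Agent.HDZ.MinP
import Pool.Agent.HDZ.Mv
import Pool.Agent.HDZ.StepZ

/-!
# HDZ: nondegenerate homogeneous hereditarily decomposable continua are circles
-/

set_option autoImplicit false

open Set Topology Filter Metric Pool.Agent.HDC Pool.Agent.HDA

namespace Pool.Agent.HDZ

/-- A class `Q` of closed sets with the combined movability and hub property gives an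
indecomposable continuum. -/
theorem indec_of_mov {X : Type*} [MetricSpace X] [CompactSpace X] {Q : Set X → Prop}
    (hQu : ∀ B B', Q B → Q B' → Q (B ∪ B'))
    (hQm : ∀ B, Q B → ∃ δ > 0, ∀ h : X ≃ₜ X, Sm h δ → Q (h '' B))
    {A : Set X} (hA : Ctm A) (hQA : Q A) {σ : ℝ} (hσ : 0 < σ)
    (hmov : ∀ g : X ≃ₜ X, Sm g σ → ∀ B, Q B → ∀ ε > 0, ∀ δ > 0, ∃ h : X ≃ₜ X, Sm h δ ∧
      Disjoint (h '' B) B ∧
      ∃ T : Set X, Q T ∧ Ctm T ∧ T ⊆ thickening ε (g '' A) ∧ (T ∩ g '' A).Nonempty ∧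
        (T ∩ h '' (g '' A)).Nonempty) :
    ∃ Y : Set X, Ctm Y ∧ Y.Nontrivial ∧ Indec Y := by
  -- the states
  let S := {s : (X ≃ₜ X) × Set X × Set X // Sm s.1 σ ∧ Disjoint A (s.1 '' A) ∧
    Irr s.2.1 A (s.1 '' A) ∧ Q s.2.2 ∧ A ∪ s.2.1 ∪ s.1 '' A ⊆ s.2.2}
  -- the initial state
  obtain ⟨δ₂, hδ₂, hQ₂⟩ := hQm A hQA
  obtain ⟨h, hh, hdis, T, hQT, hT, -, hTA, hThA⟩ := hmov (Homeomorph.refl X) (Sm.refl hσ) A hQA 1
    one_pos (min δ₂ σ) (lt_min hδ₂ hσ)
  have hrA : (Homeomorph.refl X) '' A = A := by simp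
  rw [hrA] at hTA hThA
  have hQhA : Q (h '' A) := hQ₂ h (hh.mono (min_le_left _ _))
  obtain ⟨L₀, hL₀T, hL₀⟩ := exists_irr hT hA.1 (hA.image h).1 hTA hThA
  let s₀ : S := ⟨⟨h, L₀, A ∪ T ∪ h '' A⟩, hh.mono (min_le_right _ _), hdis.symm, hL₀,
    hQu _ _ (hQu _ _ hQA hQT) hQhA,
    union_subset_union (union_subset_union subset_rfl hL₀T) subset_rfl⟩
  have hne : L₀.Nontrivial := by
    obtain ⟨a, haL, haA⟩ := hL₀.2.1
    obtain ⟨b, hbL, hbA⟩ := hL₀.2.2.1
    refine ⟨a, haL, b, hbL, ?_⟩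
    rintro rfl
    exact disjoint_left.1 hdis hbA haA
  refine exists_indec (S := S) (fun s => s.1.2.1) (fun s => A ∪ s.1.2.1 ∪ s.1.1 '' A)
    (fun s => s.2.2.2.1.1) (fun s => ?_) (fun s => ?_) s₀ hne (fun s ε hε => ?_)
  · exact (subset_union_right).trans subset_union_left
  · exact (hA.1.union s.2.2.2.1.1.1).union (hA.image s.1.1).1
  · obtain ⟨g', L', B', h1, h2, h3, h4, h5, h6⟩ := step_z hQu hQm hA hσ
      (hmov s.1.1 s.2.1 s.1.2.2 s.2.2.2.2.1) s.2.2.1 s.2.2.2.1 s.2.2.2.2.1 s.2.2.2.2.2 hε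
    exact ⟨⟨⟨g', L', B'⟩, h1, h2, h3, h4, h5⟩, h6⟩

/-- splitting a continuum of size `≤ r` into continua of size `< r` -/
theorem fq_of_le {X : Type*} [MetricSpace X] [CompactSpace X] [Nonempty X]
    [TopologicalSpace.SeparableSpace X]
    (hnd : ¬ ∃ Y : Set X, Ctm Y ∧ Y.Nontrivial ∧ Indec Y) {r : ℝ} (hr : 0 < r) {A : Set X}
    (hA : Ctm A) (h : wm A ≤ r) : FQ r A := by
  rcases A.subsingleton_or_nontrivial with hs | hn
  · obtain ⟨a, ha⟩ := hA.nonempty
    have h1 : A = {a} := hs.eq_singleton_of_mem ha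
    refine FQ.single hA ?_
    rw [h1, wm_singleton]
    exact hr
  · have h1 : ¬ Indec A := fun hi => hnd ⟨A, hA, hn, hi⟩
    unfold Indec at h1
    push Not at h1
    obtain ⟨E, F, hE, hF, hEF, hEA, hFA⟩ := h1
    have hEs : E ⊂ A := ssubset_of_subset_of_ne (hEF ▸ subset_union_left) hEA
    have hFs : F ⊂ A := ssubset_of_subset_of_ne (hEF ▸ subset_union_right) hFA
    rw [← hEF]
    exact (FQ.single hE ((wm_strict hE.1 hE.nonempty hEs).trans_le h)).union
      (FQ.single hF ((wm_strict hF.1 hF.nonempty hFs).trans_le h))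

/-- A homogeneous compact connected metric space which is not locally connected contains a
nondegenerate indecomposable continuum. -/
theorem indec_of_not_lc {X : Type*} [MetricSpace X] [CompactSpace X] [ConnectedSpace X]
    (hom : Hom X) (hlc : ¬ LocallyConnectedSpace X) :
    ∃ Y : Set X, Ctm Y ∧ Y.Nontrivial ∧ Indec Y := by
  by_contra hnd
  obtain ⟨A, B, ⟨hA, hB, hAB, hamp⟩, hmin⟩ := exists_min_pair hom
  set r := max (wm A) (wm B) with hr
  have hr0 : 0 < r := by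
    by_contra hcon
    have hpt : ∀ C : Set X, Ctm C → wm C ≤ r → C.Subsingleton := by
      intro C hC hCr
      by_contra hns
      rw [not_subsingleton_iff] at hns
      obtain ⟨c, hc⟩ := hC.nonempty
      have hss : ({c} : Set X) ⊂ C := by
        refine ssubset_of_subset_of_ne (singleton_subset_iff.2 hc) ?_
        rintro rfl
        exact not_nontrivial_singleton hns
      have h1 := wm_strict isClosed_singleton (singleton_nonempty c) hss
      rw [wm_singleton] at h1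
      linarith
    obtain ⟨c, hcA, hcB⟩ := hAB
    have h1 : A = {c} := (hpt A hA (le_max_left _ _)).eq_singleton_of_mem hcA
    have h2 : B = {c} := (hpt B hB (le_max_right _ _)).eq_singleton_of_mem hcB
    rw [h1, h2, union_self] at hamp
    exact not_amp_singleton hom hlc c hamp
  have hQM : FQ r (A ∪ B) := (fq_of_le hnd hr0 hA (le_max_left _ _)).union
    (fq_of_le hnd hr0 hB (le_max_right _ _))
  have hsm : ∀ K L : Set X, Ctm K → Ctm L → wm K < r → wm L < r → (K ∩ L).Nonempty →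
      ¬ Amp (K ∪ L) := by
    intro K L hK hL hKr hLr hKL hKLa
    have := hmin K L ⟨hK, hL, hKL, hKLa⟩
    exact absurd (max_lt hKr hLr) (not_lt.2 this)
  obtain ⟨σ, hσ, hσQ⟩ := hQM.exists_small
  exact hnd (indec_of_mov (Q := FQ r) (fun _ _ h h' => h.union h') (fun B hB => hB.exists_small)
    hamp.1 hQM hσ fun g hg B hB ε hε δ hδ => mov_hub hom hsm hB (hamp.image g) (hσQ g hg) hε hδ)

/-- Every nondegenerate homogeneous hereditarily decomposable continuum is a circle. -/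
theorem circle {X : Type*} [MetricSpace X] [CompactSpace X] [ConnectedSpace X] [Nontrivial X]
    (hom : ∀ x y : X, ∃ h : X ≃ₜ X, h x = y)
    (hd : ∀ K : Set X, IsClosed K → IsConnected K → K.Nontrivial →
      ∃ A B : Set X, IsClosed A ∧ IsConnected A ∧ IsClosed B ∧ IsConnected B ∧
        A ⊂ K ∧ B ⊂ K ∧ A ∪ B = K) : Nonempty (X ≃ₜ Circle) := by
  have hnd : ¬ ∃ Y : Set X, Ctm Y ∧ Y.Nontrivial ∧ Indec Y := by
    rintro ⟨Y, hY, hYn, hYi⟩
    obtain ⟨A, B, hA, hA', hB, hB', hAY, hBY, hAB⟩ := hd Y hY.1 hY.2 hYn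
    rcases hYi A B ⟨hA, hA'⟩ ⟨hB, hB'⟩ hAB with h | h
    · exact hAY.ne h
    · exact hBY.ne h
  have : LocallyConnectedSpace X := by
    by_contra hlc
    exact hnd (indec_of_not_lc hom hlc)
  exact circle_of_locallyConnected hom hnd

end Pool.Agent.HDZ
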